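import Pool.Agent.W555.KS.Defs2

set_option autoImplicit false

namespace Pool.Agent.W398.KS

open Finset MvPolynomial Pool.Agent.W555.KS

theorem phi_lt : StPhi := by
  intro n m hm i hi
  have hlen : (idxList m).length = m.degree := by
    unfold idxList
    rw [Multiset.length_sort, Multiset.card_map, Finsupp.card_toMultiset]
    rfl
  have hmem : (i : ℕ) ∈ idxList m := by
    unfold idxList
    rw [Multiset.mem_sort, Multiset.mem_map]
    exact ⟨i, by rwa [Finsupp.mem_toMultiset], rfl⟩
  have hsort : (idxList m).Pairwise (· ≤ ·) := by
    unfold idxList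
    exact Multiset.pairwise_sort _ _
  obtain ⟨p, hp⟩ := List.get_of_mem hmem
  have hpos : 0 < (idxList m).length := lt_of_le_of_lt (Nat.zero_le _) p.2
  set last : Fin (idxList m).length := ⟨(idxList m).length - 1, by omega⟩ with hlast
  have h1 : (idxList m).get p ≤ (idxList m).get last := by
    rcases lt_or_eq_of_le (show p ≤ last from by
      rw [Fin.le_iff_val_le_val]; have := p.2; simp [hlast]; omega) with h | h
    · exact (List.pairwise_iff_get.1 hsort) p last h
    · rw [h]
  have h2 : (idxList m).get last + (last : ℕ) ∈ phi m := by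
    unfold phi
    exact Finset.mem_image.2 ⟨last, Finset.mem_univ _, rfl⟩
  have h3 := hm _ h2
  have h4 : (last : ℕ) = (idxList m).length - 1 := rfl
  omega

end Pool.Agent.W398.KS
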